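import Mathlib

/-!
Project DC of helper17: conjugacy of `p`-regular elements which are congruent modulo a normal
`p`-subgroup.
-/

set_option autoImplicit false

namespace Pool.Agent.Q14.DC

/-- two `p`-regular elements in the same coset of a normal `p`-subgroup `D` are conjugate under
`D` -/
lemma cj {H : Type} [Group H] [Finite H] {p : ℕ} [hp : Fact p.Prime] {D : Subgroup H}
    (hn : D.Normal) (hD : IsPGroup p D) : ∀ (n : ℕ), 0 < n → ¬ p ∣ n → ∀ s t : H,
    s ^ n = 1 → t ^ n = 1 → s⁻¹ * t ∈ D → ∃ e ∈ D, e * t * e⁻¹ = s := by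
  intro n
  induction n using Nat.strong_induction_on with
  | _ n ih =>
  intro hn0 hpn s t hs ht hst
  by_cases hn1 : n = 1
  · subst hn1
    rw [pow_one] at hs ht
    exact ⟨1, D.one_mem, by rw [hs, ht]; group⟩
  · obtain ⟨m, hm⟩ := Nat.minFac_dvd n
    set q := n.minFac with hq
    have hqp : q.Prime := Nat.minFac_prime hn1
    have hm0 : 0 < m := by
      rcases Nat.eq_zero_or_pos m with h | h
      · rw [h, mul_zero] at hm
        omega
      · exact h
    have hmn : m < n := by
      rw [hm]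
      calc m < 2 * m := by omega
        _ ≤ q * m := Nat.mul_le_mul_right m hqp.two_le
    have hpm : ¬ p ∣ m := fun h => hpn (hm ▸ Dvd.dvd.mul_left h q)
    have hpow : ∀ k : ℕ, (s ^ k)⁻¹ * t ^ k ∈ D := by
      intro k
      rw [← QuotientGroup.eq] at hst ⊢
      rw [QuotientGroup.mk_pow, QuotientGroup.mk_pow, hst]
    obtain ⟨e, he, het⟩ := ih m hmn hm0 hpm (s ^ q) (t ^ q) (by rw [← pow_mul, ← hm, hs])
      (by rw [← pow_mul, ← hm, ht]) (hpow q)
    set t' := e * t * e⁻¹ with ht'
    have hq' : t' ^ q = s ^ q := by rw [ht', conj_pow, het]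
    have hst' : s⁻¹ * t' ∈ D := by
      have e1 : s⁻¹ * t' = (s⁻¹ * e * s) * (s⁻¹ * t) * e⁻¹ := by rw [ht']; group
      rw [e1]
      refine D.mul_mem (D.mul_mem ?_ hst) (D.inv_mem he)
      have := hn.conj_mem e he s⁻¹
      rwa [inv_inv] at this
    set u := s ^ q with hu
    let X : Subgroup H := D ⊓ Subgroup.centralizer ({u} : Set H)
    have hX : ∀ x, x ∈ X ↔ x ∈ D ∧ u * x = x * u := by
      intro x
      rw [Subgroup.mem_inf, Subgroup.mem_centralizer_singleton_iff]
      exact and_congr_right fun _ => eq_comm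
    have hsu : s * u = u * s := by rw [hu, ← pow_succ', ← pow_succ]
    have htu : t' * u = u * t' := by rw [← hq', ← pow_succ', ← pow_succ]
    have hstp : ∀ x ∈ X, s⁻¹ * x * t' ∈ X := by
      intro x hx
      rw [hX] at hx ⊢
      refine ⟨?_, ?_⟩
      · have e1 : s⁻¹ * x * t' = (s⁻¹ * x * s) * (s⁻¹ * t') := by group
        rw [e1]
        refine D.mul_mem ?_ hst'
        have := hn.conj_mem x hx.1 s⁻¹
        rwa [inv_inv] at this
      · have e1 : u * s⁻¹ = s⁻¹ * u := by
          rw [eq_inv_mul_iff_mul_eq, ← mul_assoc, hsu]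
          group
        calc u * (s⁻¹ * x * t') = (u * s⁻¹) * x * t' := by group
          _ = s⁻¹ * (u * x) * t' := by rw [e1]; group
          _ = s⁻¹ * x * (u * t') := by rw [hx.2]; group
          _ = s⁻¹ * x * t' * u := by rw [← htu]; group
    have hstm : ∀ x ∈ X, s * x * t'⁻¹ ∈ X := by
      intro x hx
      rw [hX] at hx ⊢
      refine ⟨?_, ?_⟩
      · have e1 : s * x * t'⁻¹ = s * (x * (s⁻¹ * t')⁻¹) * s⁻¹ := by group
        rw [e1]
        exact hn.conj_mem _ (D.mul_mem hx.1 (D.inv_mem hst')) s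
      · have e1 : u * t'⁻¹ = t'⁻¹ * u := by
          rw [eq_inv_mul_iff_mul_eq, ← mul_assoc, htu]
          group
        calc u * (s * x * t'⁻¹) = (u * s) * x * t'⁻¹ := by group
          _ = s * (u * x) * t'⁻¹ := by rw [← hsu]; group
          _ = s * x * (u * t'⁻¹) := by rw [hx.2]; group
          _ = s * x * t'⁻¹ * u := by rw [e1]; group
    let α : Equiv.Perm X :=
      { toFun := fun x => ⟨s⁻¹ * x * t', hstp x x.2⟩
        invFun := fun x => ⟨s * x * t'⁻¹, hstm x x.2⟩
        left_inv := fun x => Subtype.ext (by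
          change s * (s⁻¹ * x * t') * t'⁻¹ = x
          group)
        right_inv := fun x => Subtype.ext (by
          change s⁻¹ * (s * x * t'⁻¹) * t' = x
          group) }
    have hα : ∀ (k : ℕ) (x : X), (((α ^ k) x : X) : H) = (s ^ k)⁻¹ * x * t' ^ k := by
      intro k
      induction k with
      | zero => intro x; simp
      | succ k ihk =>
        intro x
        rw [pow_succ', Equiv.Perm.mul_apply]
        change s⁻¹ * (((α ^ k) x : X) : H) * t' = _
        rw [ihk, pow_succ, pow_succ]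
        group
    have hαq : α ^ q = 1 := by
      ext x
      rw [hα, hq', Equiv.Perm.one_apply, ← hu, mul_assoc, ← ((hX x).1 x.2).2]
      group
    have : Fact q.Prime := ⟨hqp⟩
    have : Fintype X := Fintype.ofFinite X
    have hXp : IsPGroup p X := hD.to_le inf_le_left
    have hcard : ¬ q ∣ Fintype.card X := by
      obtain ⟨k, hk⟩ := IsPGroup.iff_card.mp hXp
      rw [← Nat.card_eq_fintype_card, hk]
      intro h
      have h1 := hqp.dvd_of_dvd_pow h
      have h2 : q = p := (Nat.prime_dvd_prime_iff_eq hqp hp.out).1 h1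
      exact hpn (h2 ▸ ⟨m, hm⟩)
    classical
    obtain ⟨x, hx⟩ := Equiv.Perm.exists_fixed_point_of_prime (p := q) (n := 1) hcard
      (σ := α) (by rw [pow_one]; exact hαq)
    have hx' : s⁻¹ * (x : H) * t' = x := congrArg Subtype.val hx
    refine ⟨x * e, D.mul_mem ((hX x).1 x.2).1 he, ?_⟩
    have e1 : (x : H) * e * t * ((x : H) * e)⁻¹ = (x : H) * t' * (x : H)⁻¹ := by
      rw [ht']
      group
    rw [e1, mul_inv_eq_iff_eq_mul]
    have e2 : (x : H) * t' = s * (s⁻¹ * (x : H) * t') := by group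
    rw [e2, hx']

/-- two `p`-regular elements in the same coset of a normal `p`-subgroup `D` are conjugate -/
lemma cj' {H : Type} [Group H] [Finite H] {p : ℕ} [hp : Fact p.Prime] {D : Subgroup H}
    (hn : D.Normal) (hD : IsPGroup p D) {s t : H} (hs : ¬ p ∣ orderOf s) (ht : ¬ p ∣ orderOf t)
    (h : s⁻¹ * t ∈ D) : ∃ e ∈ D, e * t * e⁻¹ = s :=
  cj hn hD (orderOf s * orderOf t) (Nat.mul_pos (orderOf_pos s) (orderOf_pos t))
    (fun h => by
      rcases (hp.out.dvd_mul).1 h with h | h
      · exact hs h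
      · exact ht h) s t
    (by rw [pow_mul, pow_orderOf_eq_one, one_pow])
    (by rw [mul_comm, pow_mul, pow_orderOf_eq_one, one_pow]) h

end Pool.Agent.Q14.DC
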