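import Pool.Agent.Q176.DC.DZV
import Pool.Agent.H254R3.IN.Fin
import Pool.Agent.Q17.DC.Stm5

/-!
Project DC of helper17: characters of a block with a normal defect group `D` which have `D` in the
kernel have defect zero as characters of the quotient.
-/

set_option autoImplicit false

open scoped BigOperators Classical
open Pool.Agent.H254R3.IN Pool.Agent.Y63.KR Pool.Agent.Q17.TC Pool.Agent.Q17.DC

noncomputable section

namespace Pool.Agent.Q14.DC

/-- the valuation of a quotient in `O` -/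
lemma val_le {p : ℕ} [hp : Fact p.Prime] {O : ValuationSubring ℂ} (hpO : (p : ℂ) ∈ O.nonunits)
    {a b : ℕ} (ha : a ≠ 0) (hb : b ≠ 0) (h : (a : ℂ) / b ∈ O) :
    b.factorization p ≤ a.factorization p := by
  by_contra hlt
  obtain ⟨d, hd⟩ := Nat.exists_eq_add_of_lt (not_le.1 hlt)
  obtain ⟨ha1, ha2⟩ := pPrimePart_spec (p := p) ha
  obtain ⟨hb1, hb2⟩ := pPrimePart_spec (p := p) hb
  apply ha2
  rw [← red_nat_eq_zero_iff hpO]
  have hp0 : (p : ℂ) ≠ 0 := by exact_mod_cast hp.out.ne_zero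
  have hb0 : (pPrimePart p b : ℂ) ≠ 0 := by
    intro h0
    have h1 : pPrimePart p b = 0 := by exact_mod_cast h0
    exact hb2 (h1 ▸ dvd_zero p)
  have e1 : (a : ℂ) = (p : ℂ) ^ a.factorization p * pPrimePart p a := by exact_mod_cast ha1
  have e2 : (b : ℂ) = (p : ℂ) ^ b.factorization p * pPrimePart p b := by exact_mod_cast hb1
  have e3 : (pPrimePart p a : ℂ) = (p : ℂ) ^ d * (pPrimePart p b * (a / b)) * p := by
    rw [e1, e2, hd]
    have h1 : (p : ℂ) ^ a.factorization p ≠ 0 := pow_ne_zero _ hp0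
    rw [pow_succ, pow_add]
    have h2 : (p : ℂ) ^ d ≠ 0 := pow_ne_zero _ hp0
    field_simp
  rw [e3]
  have h1 : (p : ℂ) ^ d * (pPrimePart p b * (a / b)) ∈ O :=
    O.mul_mem _ _ (pow_mem (natCast_mem' p) d) (O.mul_mem _ _ (natCast_mem' _) h)
  exact (nu_iff.1 (nu_mul h1 hpO)).2

/-- the degree of an irreducible character divides the order of the group, in `O` -/
lemma card_div_mem {G : Type} [Group G] [Fintype G] (O : ValuationSubring ℂ) {χ : G → ℂ}
    (hχ : IsIrr χ) : (Nat.card G : ℂ) / χ 1 ∈ O := by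
  have hcl : IsCl (fun g => χ g⁻¹) := by
    intro g y
    have e1 : (y * g * y⁻¹)⁻¹ = y * g⁻¹ * y⁻¹ := by group
    change χ (y * g * y⁻¹)⁻¹ = χ g⁻¹
    rw [e1, hχ.conj]
  have h1 := (red_Om hχ hcl (fun g => hχ.val_mem O _)).1
  have h2 : Om (fun g => χ g⁻¹) χ = (Nat.card G : ℂ) / χ 1 := by
    unfold Om
    congr 1
    have h3 := orth_sum hχ hχ
    rw [if_pos rfl] at h3
    rw [← h3]
    exact Finset.sum_congr rfl fun g _ => mul_comm _ _
  rwa [h2] at h1

/-- the defect of the characters with the normal defect group in the kernel -/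
lemma def_eq {H : Type} [Group H] [Fintype H] {p : ℕ} [hp : Fact p.Prime]
    {O : ValuationSubring ℂ} (hpO : (p : ℂ) ∈ O.nonunits) {b : Set (H → ℂ)} (hb : IsBlock O b)
    {D : Subgroup H} (hD : IsDefectGroup p O b D) (hn : D.Normal) {φ : H → ℂ}
    (hφ : φ ∈ Mb b D) : ∃ n : ℕ, (n : ℂ) = φ 1 ∧
      (Nat.card H).factorization p = (Nat.card D).factorization p + n.factorization p := by
  have hirr := hb.irr φ hφ.1
  obtain ⟨n, hn0, hn1⟩ := hirr.deg
  refine ⟨n, hn1, ?_⟩
  have hc : Nat.card H = Nat.card (H ⧸ D) * Nat.card D :=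
    Subgroup.card_eq_card_quotient_mul_card_subgroup D
  have hH0 : Nat.card H ≠ 0 := Nat.card_pos.ne'
  have hD0 : Nat.card D ≠ 0 := Nat.card_pos.ne'
  have hQ0 : Nat.card (H ⧸ D) ≠ 0 := Nat.card_pos.ne'
  have h1 := uu_mem hpO hb hD hφ.1
  unfold uu at h1
  rw [← hn1] at h1
  have h2 : ((n * Nat.card D : ℕ) : ℂ) / (Nat.card H : ℕ) ∈ O := by
    rw [Nat.cast_mul]
    exact h1
  have h3 := val_le hpO (mul_ne_zero hn0.ne' hD0) hH0 h2
  rw [Nat.factorization_mul hn0.ne' hD0, Finsupp.add_apply] at h3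
  haveI := hn
  haveI : Fintype (H ⧸ D) := Fintype.ofFinite _
  obtain ⟨φ', hφ', hval⟩ := Pool.Agent.Q176.DC.DZV.quot_char D hirr hφ.2
  have h4 := card_div_mem O hφ'
  have h5 : φ' 1 = n := by
    rw [hn1, ← hval 1]
    rfl
  rw [h5] at h4
  have h6 := val_le hpO hQ0 hn0.ne' h4
  have h7 : (Nat.card H).factorization p =
      (Nat.card (H ⧸ D)).factorization p + (Nat.card D).factorization p := by
    rw [hc, Nat.factorization_mul hQ0 hD0, Finsupp.add_apply]
  omega

end Pool.Agent.Q14.DC
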