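import Pool.Agent.Q14.DC.Cj
import Pool.Agent.Q14.DC.Dfc
import Pool.Agent.Q261.DC.Cmp

/-!
Job NDL of project DC (helper17): the Brauer characters of a block with a normal defect group.
-/

set_option autoImplicit false

open scoped BigOperators Classical
open Pool.Agent.H254R3.IN Pool.Agent.Y63.KR Pool.Agent.Q17.TC Pool.Agent.Q17.DC
open Pool.Agent.Helper884 Pool.Agent.Q261.DC Pool.Agent.Q111.DC

noncomputable section

namespace Pool.Agent.Q14.DC

variable {H : Type} [Group H] [Fintype H]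

/-- inflation of an irreducible character -/
lemma irr_infl {D : Subgroup H} [D.Normal] {χ : H ⧸ D → ℂ} (hχ : IsIrr χ) :
    IsIrr (fun x : H => χ (QuotientGroup.mk x)) := by
  obtain ⟨V, _, _, _, σ, hr, rfl⟩ := hχ
  let ρ : Representation ℂ H V := σ.comp (QuotientGroup.mk' D)
  exact ⟨V, _, _, inferInstance, ρ, (Pool.Agent.Helper884.PK.irr_pull (QuotientGroup.mk' D)
    (QuotientGroup.mk'_surjective D) σ ρ (fun g => rfl)).2 hr, rfl⟩

/-- a class function agrees on the `p`-regular elements with a linear combination of irreducible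
characters with the normal `p`-subgroup `D` in the kernel -/
lemma infl {p : ℕ} [hp : Fact p.Prime] {D : Subgroup H} (hn : D.Normal) (hD : IsPGroup p D)
    {h : H → ℂ} (hh : IsCl h) :
    ∃ F ∈ Submodule.span ℂ {ψ : H → ℂ | IsIrr ψ ∧ ∀ x ∈ D, ψ x = ψ 1},
      ∀ s, ¬ p ∣ orderOf s → F s = h s := by
  haveI := hn
  haveI : Fintype (H ⧸ D) := Fintype.ofFinite _
  let k : H ⧸ D → ℂ := fun c =>
    if hc : ∃ s : H, ¬ p ∣ orderOf s ∧ (QuotientGroup.mk s : H ⧸ D) = c then h hc.choose else 0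
  have hk : ∀ s : H, ¬ p ∣ orderOf s → k (QuotientGroup.mk s) = h s := by
    intro s hs
    have hc : ∃ t : H, ¬ p ∣ orderOf t ∧ (QuotientGroup.mk t : H ⧸ D) = QuotientGroup.mk s :=
      ⟨s, hs, rfl⟩
    have e1 : k (QuotientGroup.mk s) = h hc.choose := dif_pos hc
    rw [e1]
    obtain ⟨h1, h2⟩ := hc.choose_spec
    obtain ⟨e, -, he⟩ := cj' hn hD h1 hs (QuotientGroup.eq.1 h2)
    rw [← he, hh]
  have hk0 : ∀ c, (¬ ∃ s : H, ¬ p ∣ orderOf s ∧ (QuotientGroup.mk s : H ⧸ D) = c) → k c = 0 :=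
    fun c hc => dif_neg hc
  have hord : ∀ a s : H, orderOf (a * s * a⁻¹) = orderOf s := fun a s =>
    orderOf_injective (MulAut.conj a).toMonoidHom (MulAut.conj a).injective s
  have hcl : IsCl k := by
    intro c y
    obtain ⟨a, rfl⟩ := QuotientGroup.mk_surjective y
    by_cases hc : ∃ s : H, ¬ p ∣ orderOf s ∧ (QuotientGroup.mk s : H ⧸ D) = c
    · obtain ⟨s, hs, rfl⟩ := hc
      have e1 : (QuotientGroup.mk a : H ⧸ D) * QuotientGroup.mk s * (QuotientGroup.mk a)⁻¹ =
          QuotientGroup.mk (a * s * a⁻¹) := rfl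
      rw [e1, hk s hs, hk _ (by rw [hord]; exact hs), hh]
    · rw [hk0 c hc, hk0]
      rintro ⟨s, hs, hsc⟩
      apply hc
      refine ⟨a⁻¹ * s * a, ?_, ?_⟩
      · have := hord a⁻¹ s
        rw [inv_inv] at this
        rw [this]
        exact hs
      · have e1 : (QuotientGroup.mk (a⁻¹ * s * a) : H ⧸ D) =
          (QuotientGroup.mk a)⁻¹ * QuotientGroup.mk s * QuotientGroup.mk a := rfl
        rw [e1, hsc]
        group
  have hexp := IC.expand k hcl
  refine ⟨fun x => k (QuotientGroup.mk x), ?_, hk⟩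
  have e : (fun x : H => k (QuotientGroup.mk x)) =
      ∑ χ ∈ IC.Irr (H ⧸ D), IC.B k χ • (fun x : H => χ (QuotientGroup.mk x)) := by
    funext x
    rw [Finset.sum_apply]
    have h1 := congrFun hexp (QuotientGroup.mk x)
    rw [Finset.sum_apply] at h1
    exact h1
  rw [e]
  refine Submodule.sum_mem _ fun χ hχ => Submodule.smul_mem _ _
    (Submodule.subset_span ⟨irr_infl (mem_Irr.1 hχ), fun x hx => ?_⟩)
  have h1 : (QuotientGroup.mk x : H ⧸ D) = 1 := (QuotientGroup.eq_one_iff x).2 hx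
  change χ (QuotientGroup.mk x) = χ 1
  rw [h1]

/-- restriction to a section commutes with the block components -/
lemma cmp_rS (sect : S_SECT) {p : ℕ} [Fact p.Prime] {O : ValuationSubring ℂ}
    (hp : (p : ℂ) ∈ O.nonunits) {b : Set (H → ℂ)} (hb : IsBlock O b) (u : H) {F : H → ℂ}
    (hF : F ∈ CF H) : cmpL b (rS p u F) = rS p u (cmpL b F) := by
  have h1 : CF H ≤ LinearMap.ker (cmpL b ∘ₗ rS p u - rS p u ∘ₗ cmpL b) := by
    refine Submodule.span_le.2 fun χ hχ => ?_
    rw [SetLike.mem_coe, LinearMap.mem_ker, LinearMap.sub_apply, LinearMap.comp_apply,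
      LinearMap.comp_apply, cmpL_irr hb.irr hχ]
    have hB : IsBlock O (Bl O χ) := Bl_block hχ
    have hm : rS p u χ ∈ Submodule.span ℂ (Bl O χ) :=
      rS_stab sect hp hB u (Submodule.mem_map_of_mem (Submodule.subset_span (mem_Bl_self hχ)))
    by_cases hc : χ ∈ b
    · rw [if_pos hc, cmpL_self hb.irr (by rw [block_eqc hb hc]; exact hm), sub_self]
    · rw [if_neg hc, map_zero, sub_zero]
      refine cmpL_other hb.irr hB.irr (block_disj hb hB ?_) hm
      rintro rfl
      exact hc (mem_Bl_self hχ)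
  have h2 := h1 hF
  rw [LinearMap.mem_ker, LinearMap.sub_apply, sub_eq_zero] at h2
  exact h2

/-- values of the characters with the defect group in the kernel -/
lemma val_Mb (dzv : S_DZV) {p : ℕ} [Fact p.Prime] {O : ValuationSubring ℂ}
    (hpO : (p : ℂ) ∈ O.nonunits) {b : Set (H → ℂ)} (hb : IsBlock O b) {D : Subgroup H}
    (hD : IsDefectGroup p O b D) (hn : D.Normal) {f : H → ℂ}
    (hf : f ∈ Submodule.span ℂ (Mb b D)) (z s : H) (hc : Commute z s)
    (hz : ∃ k, orderOf z = p ^ k) (hs : ¬ p ∣ orderOf s) :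
    (z ∉ D → f (z * s) = 0) ∧ (z ∈ D → f (z * s) = f s) := by
  induction hf using Submodule.span_induction with
  | mem φ hφ =>
    constructor
    · intro hzD
      by_contra hne
      exact hzD (dzv H p O hpO D hn (defect_pgroup hD) φ (hb.irr φ hφ.1) hφ.2
        (def_eq hpO hb hD hn hφ) z s hc hz hs hne)
    · intro hzD
      haveI := hn
      obtain ⟨φ', -, hval⟩ := Pool.Agent.Q176.DC.DZV.quot_char D (hb.irr φ hφ.1) hφ.2
      rw [← hval, ← hval]
      congr 1
      have e1 : (QuotientGroup.mk (z * s) : H ⧸ D) = QuotientGroup.mk z * QuotientGroup.mk s := rfl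
      rw [e1, (QuotientGroup.eq_one_iff z).2 hzD, one_mul]
  | zero => exact ⟨fun _ => rfl, fun _ => rfl⟩
  | add f g _ _ hf hg =>
    refine ⟨fun h => ?_, fun h => ?_⟩
    · rw [Pi.add_apply, hf.1 h, hg.1 h, add_zero]
    · rw [Pi.add_apply, Pi.add_apply, hf.2 h, hg.2 h]
  | smul a f _ hf =>
    refine ⟨fun h => ?_, fun h => ?_⟩
    · rw [Pi.smul_apply, hf.1 h, smul_zero]
    · rw [Pi.smul_apply, Pi.smul_apply, hf.2 h]

theorem t_NDL (sect : S_SECT) (dzv : S_DZV) : S_NDL := by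
  intro H _ _ p _ O hpO b hb D hD hn
  have hDp : IsPGroup p D := defect_pgroup hD
  have hM : ∀ χ ∈ Mb b D, IsIrr χ := fun χ hχ => hb.irr χ hχ.1
  rw [lB_eq, dS_eq, ← finrank_block hM]
  have himg : (Submodule.span ℂ b).map (rS p (1 : H)) =
      (Submodule.span ℂ (Mb b D)).map (rS p 1) := by
    refine le_antisymm ?_ (Submodule.map_mono (Submodule.span_mono fun χ hχ => hχ.1))
    rintro h ⟨f, hf, rfl⟩
    have h1 : rS p 1 f ∈ Submodule.span ℂ b := rS_stab sect hpO hb 1 (Submodule.mem_map_of_mem hf)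
    have hbCF : Submodule.span ℂ b ≤ CF H := Submodule.span_mono fun χ hχ => hb.irr χ hχ
    obtain ⟨F, hF, hFs⟩ := infl hn hDp (CF_cl (hbCF h1))
    have hFCF : F ∈ CF H := (Submodule.span_mono fun χ hχ => hχ.1 :
      Submodule.span ℂ {ψ : H → ℂ | IsIrr ψ ∧ ∀ x ∈ D, ψ x = ψ 1} ≤ CF H) hF
    have h2 : rS p 1 F = rS p 1 f := by
      funext x
      by_cases hx : p ∣ orderOf x
      · rw [rS_apply, rS_apply, if_neg (fun h => (InS_one x).1 h hx),
          if_neg (fun h => (InS_one x).1 h hx)]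
      · rw [rS_apply, if_pos ((InS_one x).2 hx), hFs x hx]
    have h3 : cmpL b F ∈ Submodule.span ℂ (Mb b D) := by
      have h4 : Submodule.span ℂ {ψ : H → ℂ | IsIrr ψ ∧ ∀ x ∈ D, ψ x = ψ 1} ≤
          (Submodule.span ℂ (Mb b D)).comap (cmpL b) := by
        refine Submodule.span_le.2 fun ψ hψ => ?_
        rw [SetLike.mem_coe, Submodule.mem_comap, cmpL_irr hb.irr hψ.1]
        split_ifs with hm
        · exact Submodule.subset_span ⟨hm, hψ.2⟩
        · exact Submodule.zero_mem _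
      exact h4 hF
    refine ⟨cmpL b F, h3, ?_⟩
    rw [← cmp_rS sect hpO hb 1 hFCF, h2, cmpL_self hb.irr h1]
  rw [himg]
  have hinj : Function.Injective ((rS p (1 : H)).domRestrict (Submodule.span ℂ (Mb b D))) := by
    rw [← LinearMap.ker_eq_bot, LinearMap.ker_eq_bot']
    rintro ⟨f, hf⟩ h0
    have h1 : rS p 1 f = 0 := h0
    apply Subtype.ext
    funext x
    change f x = 0
    obtain ⟨z, s, k, rfl, hc, hz, hs, -, -⟩ := p_parts p x
    obtain ⟨h2, h3⟩ := val_Mb dzv hpO hb hD hn hf z s hc ⟨k, hz⟩ hs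
    by_cases hzD : z ∈ D
    · rw [h3 hzD]
      have h4 := congrFun h1 s
      rw [rS_apply, if_pos ((InS_one s).2 hs)] at h4
      exact h4
    · exact h2 hzD
  have h5 := LinearMap.finrank_range_of_inj hinj
  rw [LinearMap.range_domRestrict] at h5
  exact h5

end Pool.Agent.Q14.DC
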