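import Pool.Agent.Q14.DC.Dfc
import Pool.Agent.H254R3.IN.NonVan
import Pool.Agent.Y62.Transfer

/-!
Job NDW of project DC (helper17): the weights of a block with a normal defect group.
-/

set_option autoImplicit false

open scoped BigOperators Classical
open Pool.Agent.H254R3.IN Pool.Agent.Y63.KR Pool.Agent.Q17.TC Pool.Agent.Q17.DC
open Pool.Agent.Y62

noncomputable section

namespace Pool.Agent.Q14.DC

variable {H : Type} [Group H] [Fintype H]

/-- the induced central character for a subgroup which is everything -/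
lemma omega_top {L : Subgroup H} (hL : L = ⊤) {χ : H → ℂ} (hχ : IsIrr χ) (x : H) :
    ∑ᶠ y : {y : L // IsConj x (y : H)}, χ (y.1 : H) / χ 1 = omega χ x := by
  subst hL
  have h2 : ∀ y : {y : (⊤ : Subgroup H) // IsConj x (y : H)}, χ (y.1 : H) / χ 1 =
      χ x / χ 1 := fun y => by rw [hχ.isConj y.2]
  rw [finsum_congr h2, finsum_eq_sum_of_fintype, Finset.sum_const, Finset.card_univ,
    nsmul_eq_mul]
  unfold omega
  rw [mul_div_assoc]
  congr 2
  rw [← Nat.card_eq_fintype_card]
  exact Nat.card_congr (Subgroup.topEquiv.toEquiv.subtypeEquiv fun y => Iff.rfl)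

lemma nu_neg {O : ValuationSubring ℂ} {x y : ℂ} (h : x - y ∈ O.nonunits) : y - x ∈ O.nonunits := by
  have h1 := nu_mul (O.neg_mem _ O.one_mem) h
  have e1 : -1 * (x - y) = y - x := by ring
  rwa [e1] at h1

lemma nu_trans {O : ValuationSubring ℂ} {x y z : ℂ} (h : x - y ∈ O.nonunits)
    (h' : y - z ∈ O.nonunits) : x - z ∈ O.nonunits := by
  have h1 := nu_add h h'
  have e1 : x - y + (y - z) = x - z := by ring
  rwa [e1] at h1

/-- the members of a block -/
lemma mem_blk {O : ValuationSubring ℂ} {b : Set (H → ℂ)} (hb : IsBlock O b) {χ : H → ℂ} :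
    χ ∈ b ↔ IsIrr χ ∧ ∀ ψ ∈ b, ∀ x : H, omega ψ x - omega χ x ∈ O.nonunits := by
  obtain ⟨χ₁, h3, rfl⟩ := hb
  constructor
  · rintro ⟨h1, h2⟩
    exact ⟨h1, fun ψ hψ x => nu_trans (hψ.2 x) (nu_neg (h2 x))⟩
  · rintro ⟨h1, h2⟩
    exact ⟨h1, fun x => nu_neg (h2 χ₁ ⟨h3, fun x => by
      rw [sub_self]
      exact O.nonunits.zero_mem⟩ x)⟩

/-- the normaliser of a normal subgroup -/
lemma norm_top {D : Subgroup H} (hn : D.Normal) : Subgroup.normalizer (D : Set H) = ⊤ :=
  Subgroup.normalizer_eq_top_iff.2 hn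

/-- restriction to a subgroup which is everything -/
lemma irr_top {L : Subgroup H} (hL : L = ⊤) {χ : H → ℂ} (hχ : IsIrr χ) :
    IsIrr (fun x : L => χ x) := by
  subst hL
  exact irr_comp hχ Subgroup.topEquiv

/-- extension from a subgroup which is everything -/
lemma irr_top' {L : Subgroup H} (hL : L = ⊤) {φ : L → ℂ} (hφ : IsIrr φ)
    (hm : ∀ x : H, x ∈ L) : IsIrr (fun x : H => φ ⟨x, hm x⟩) := by
  subst hL
  exact irr_comp hφ Subgroup.topEquiv.symm

/-- the weights of the characters with the normal defect group in the kernel -/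
lemma isWt_Mb {p : ℕ} [hp : Fact p.Prime] {O : ValuationSubring ℂ}
    (hpO : (p : ℂ) ∈ O.nonunits) {b : Set (H → ℂ)} (hb : IsBlock O b) {D : Subgroup H}
    (hD : IsDefectGroup p O b D) (hn : D.Normal) {φ : H → ℂ} (hφ : φ ∈ Mb b D) :
    IsWt p O b D (fun x => φ x) where
  isp := defect_pgroup hD
  irr := irr_top (norm_top hn) (hb.irr φ hφ.1)
  ker := fun x hx => hφ.2 x hx
  defect := by
    obtain ⟨n, h1, h2⟩ := def_eq hpO hb hD hn hφ
    refine ⟨n, h1, ?_⟩
    rw [norm_top hn, Subgroup.card_top]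
    exact h2
  ind := by
    intro χ hχ x
    have h1 := omega_top (norm_top hn) (hb.irr φ hφ.1) x
    have h2 := ((mem_blk hb).1 hφ.1).2 χ hχ x
    rw [← h1] at h2
    exact h2

/-- the subgroup of a weight is the normal defect group -/
lemma wt_eq (dzp : S_DZP) (dzv : S_DZV) {p : ℕ} [hp : Fact p.Prime] {O : ValuationSubring ℂ}
    (hpO : (p : ℂ) ∈ O.nonunits) {b : Set (H → ℂ)} (hb : IsBlock O b) {D : Subgroup H}
    (hD : IsDefectGroup p O b D) (hn : D.Normal) {Q : Subgroup H}
    {φ : Subgroup.normalizer (Q : Set H) → ℂ} (hw : IsWt p O b Q φ) : Q = D := by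
  have hDp : IsPGroup p D := defect_pgroup hD
  have hφ1 : φ 1 ≠ 0 := hw.irr.one_ne
  -- `Q` is contained in `D`
  have hQD : Q ≤ D := by
    intro q hq
    have hqN : q ∈ Subgroup.normalizer (Q : Set H) := Subgroup.le_normalizer hq
    obtain ⟨k, hk⟩ := hw.isp ⟨q, hq⟩
    have hk' : q ^ p ^ k = 1 := congrArg Subtype.val hk
    obtain ⟨j, -, hj⟩ := (Nat.dvd_prime_pow hp.out).mp (orderOf_dvd_of_pow_eq_one hk')
    obtain ⟨g, hg⟩ := dzp H p O hpO (Subgroup.normalizer (Q : Set H)) φ hw.irr ⟨q, hqN⟩ 1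
      (Commute.one_right _) ⟨j, by rw [Subgroup.orderOf_mk, hj]⟩
      (by rw [orderOf_one]; exact hp.out.one_lt.ne' ∘ Nat.dvd_one.1)
      (by rw [mul_one, hw.ker _ hq]; exact hφ1) b hb hw.ind D hD
    have h1 := hn.conj_mem _ hg g⁻¹
    have e1 : g⁻¹ * (g * ((⟨q, hqN⟩ : Subgroup.normalizer (Q : Set H)) : H) * g⁻¹) * g⁻¹⁻¹ = q := by
      group
    rwa [e1] at h1
  -- the normaliser of `Q` in `D`
  let R : Subgroup (Subgroup.normalizer (Q : Set H)) :=
    D.subgroupOf (Subgroup.normalizer (Q : Set H))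
  let Q' : Subgroup (Subgroup.normalizer (Q : Set H)) :=
    Q.subgroupOf (Subgroup.normalizer (Q : Set H))
  haveI hRn : R.Normal := hn.subgroupOf _
  have hQ'n : Q'.Normal := by
    refine ⟨fun n hnq g => ?_⟩
    rw [Subgroup.mem_subgroupOf] at hnq ⊢
    exact (Subgroup.mem_normalizer_iff.1 g.2 (n : H)).1 hnq
  have hQ'p : IsPGroup p Q' := hw.isp.comap_of_injective
    (Subgroup.normalizer (Q : Set H)).subtype (Subgroup.subtype_injective _)
  have hRp : IsPGroup p R := hDp.comap_of_injective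
    (Subgroup.normalizer (Q : Set H)).subtype (Subgroup.subtype_injective _)
  have hcQ : Nat.card Q' = Nat.card Q :=
    Nat.card_congr (Subgroup.subgroupOfEquivOfLe Subgroup.le_normalizer).toEquiv
  obtain ⟨c, hc, havg⟩ := avg (D := R) hw.irr
  have h1 := havg 1
  have h2 : ∀ x : Subgroup.normalizer (Q : Set H),
      (if (1 : Subgroup.normalizer (Q : Set H))⁻¹ * x ∈ R then φ x else 0) =
        if x ∈ Q' then φ 1 else 0 := by
    intro x
    rw [inv_one, one_mul]
    by_cases hx : x ∈ Q'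
    · have hxR : x ∈ R := hQD hx
      rw [if_pos hx, if_pos hxR, hw.ker x hx]
    · rw [if_neg hx]
      split_ifs with hxR
      · by_contra hne
        apply hx
        obtain ⟨k, hk⟩ := hRp ⟨x, hxR⟩
        have hk' : x ^ p ^ k = 1 := congrArg Subtype.val hk
        obtain ⟨j, -, hj⟩ := (Nat.dvd_prime_pow hp.out).mp (orderOf_dvd_of_pow_eq_one hk')
        refine dzv (Subgroup.normalizer (Q : Set H)) p O hpO Q' hQ'n hQ'p φ hw.irr (fun y hy => hw.ker y hy) ?_ x 1
          (Commute.one_right _) ⟨j, hj⟩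
          (by rw [orderOf_one]; exact hp.out.one_lt.ne' ∘ Nat.dvd_one.1)
          (by rw [mul_one]; exact hne)
        rw [hcQ]
        exact hw.defect
      · rfl
  rw [Finset.sum_congr rfl (fun x _ => h2 x), ← Finset.sum_filter, Finset.sum_const,
    nsmul_eq_mul] at h1
  have h3 : (((Finset.univ.filter fun x => x ∈ Q').card : ℕ) : ℂ) = c := mul_right_cancel₀ hφ1 h1
  have h4 : (Finset.univ.filter fun x => x ∈ Q').card = Nat.card Q' := by
    rw [Nat.card_eq_fintype_card, Fintype.card_subtype]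
  rw [h4] at h3
  have h5 : Nat.card Q' = Nat.card R := by
    rcases hc with h | h
    · exfalso
      rw [h] at h3
      have h6 : Nat.card Q' = 0 := by exact_mod_cast h3
      exact Nat.card_pos.ne' h6
    · rw [h] at h3
      exact_mod_cast h3
  have hQR : Q' ≤ R := fun x hx => hQD hx
  have h6 : Q' = R := Subgroup.eq_of_le_of_card_ge hQR h5.ge
  -- the normaliser condition in `D`
  have hnil : Group.IsNilpotent D := hDp.isNilpotent
  have h7 := (normalizerCondition_iff_only_full_group_self_normalizing.1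
    (@Group.normalizerCondition_of_isNilpotent D _ hnil)) (Q.subgroupOf D) (by
      refine le_antisymm ?_ Subgroup.le_normalizer
      intro x hx
      have hxA : (x : H) ∈ Subgroup.normalizer (Q : Set H) := by
        rw [Subgroup.mem_normalizer_iff]
        intro y
        have h8 := Subgroup.mem_normalizer_iff.1 hx
        constructor
        · intro hy
          exact (h8 ⟨y, hQD hy⟩).1 hy
        · intro hy
          have hyD : y ∈ D := by
            have h9 := hn.conj_mem _ (hQD hy) (x : H)⁻¹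
            have e1 : (x : H)⁻¹ * ((x : H) * y * (x : H)⁻¹) * (x : H)⁻¹⁻¹ = y := by group
            rwa [e1] at h9
          exact (h8 ⟨y, hyD⟩).2 hy
      have h8 : (⟨(x : H), hxA⟩ : Subgroup.normalizer (Q : Set H)) ∈ R := x.2
      rw [← h6] at h8
      exact h8)
  refine le_antisymm hQD fun d hd => ?_
  have h8 : (⟨d, hd⟩ : D) ∈ Q.subgroupOf D := by
    rw [h7]
    exact Subgroup.mem_top _
  exact h8

theorem t_NDW (dzp : S_DZP) (dzv : S_DZV) : S_NDW := by
  intro H _ _ p _ O hpO b hb D hD hn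
  unfold nW
  symm
  let F : Mb b D → Quotient (wtS p O b) := fun φ =>
    Quotient.mk (wtS p O b) ⟨⟨D, fun x => φ.1 x⟩, isWt_Mb hpO hb hD hn φ.2⟩
  refine Nat.card_congr (Equiv.ofBijective F ⟨?_, ?_⟩)
  · rintro ⟨φ, hφ⟩ ⟨φ', hφ'⟩ h
    obtain ⟨g, -, hg⟩ := Quotient.exact h
    apply Subtype.ext
    funext x
    have hm : ∀ y : H, y ∈ Subgroup.normalizer (D : Set H) := fun y => by
      rw [norm_top hn]
      exact Subgroup.mem_top y
    have h1 : φ' (g * x * g⁻¹) = φ x := hg ⟨x, hm x⟩ ⟨g * x * g⁻¹, hm _⟩ rfl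
    rw [(hb.irr φ' hφ'.1).conj] at h1
    exact h1.symm
  · intro c
    obtain ⟨⟨⟨Q, φ⟩, hw⟩, rfl⟩ := Quotient.exists_rep c
    have hw' : IsWt p O b Q φ := hw
    obtain rfl : Q = D := wt_eq dzp dzv hpO hb hD hn hw'
    have hm : ∀ y : H, y ∈ Subgroup.normalizer (Q : Set H) := fun y => by
      rw [norm_top hn]
      exact Subgroup.mem_top y
    have hirr : IsIrr (fun x : H => φ ⟨x, hm x⟩) := irr_top' (norm_top hn) hw'.irr hm
    refine ⟨⟨fun x => φ ⟨x, hm x⟩, (mem_blk hb).2 ⟨hirr, fun ψ hψ x => ?_⟩, fun x hx => ?_⟩, rfl⟩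
    · have h1 := hw'.ind ψ hψ x
      have h2 := omega_top (norm_top hn) hirr x
      rw [← h2]
      exact h1
    · exact hw'.ker ⟨x, hm x⟩ hx

end Pool.Agent.Q14.DC
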